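import Pool.Agent.Lib.NV6.C_LGC
import Pool.Agent.Lib.NV6.C_AMG
import Pool.Agent.Lib.NV6.C_CLS

/-! The measure theoretic core of the test on a general fibre. -/

open scoped Topology ENNReal
open Set MeasureTheory Filter

noncomputable section

namespace Pool.Agent.Lib.KB14

open Pool.Agent.Lib.NV6

/-- The density of the main term. -/
def mn (θ e₃ e b b' : ℝ) : ℝ := b * b' * (b + e₃ * b' + e) ^ (-(2 + θ))

/-- The density of the error. -/
def er (θ e₃ e b b' : ℝ) : ℝ := θ⁻¹ * (b' * (e₃ * b' + e) * (b + e₃ * b' + e) ^ (-(2 + θ)))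

namespace Key

variable {b b' e e₃ θ : ℝ}

theorem near (hb : 0 < b) (hb' : 0 < b') (h : (Real.log b - Real.log b') ^ 2 ≤ 1) :
    b ≤ 3 * b' ∧ b' ≤ 3 * b := by
  have k : ∀ {x y : ℝ}, 0 < x → 0 < y → Real.log x - Real.log y ≤ 1 → x ≤ 3 * y :=
    fun {x y} hx hy h => by
    rw [← Real.log_div hx.ne' hy.ne', Real.log_le_iff_le_exp (div_pos hx hy), div_le_iff₀ hy] at h
    exact h.trans (mul_le_mul_of_nonneg_right Real.exp_one_lt_three.le hy.le)
  obtain ⟨h1, h2⟩ := abs_le.1 ((sq_le_one_iff_abs_le_one _).1 h)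
  exact ⟨k hb hb' h2, k hb' hb (by linarith)⟩

theorem low {t L w : ℝ} (t0 : 0 < t) (L1 : 1 ≤ L) (hb : 0 < b) (hb' : 0 < b') (hw : 0 < w)
    (e0 : 0 < e) (e1 : e ≤ 1) (f0 : 0 < e₃) (f1 : e₃ ≤ 1) (θ0 : 0 < θ) (θ1 : θ ≤ 1) :
    (375 * L ^ 6)⁻¹ ≤ mn θ e₃ e b b' * w + (375 * L ^ 6)⁻¹ *
      ((b ^ t + b ^ (-t)) / L ^ t + w⁻¹ / L + (Real.log b - Real.log b') ^ 2) := by
  have L0 : 0 < L := one_pos.trans_le L1
  have S0 : 0 < b + e₃ * b' + e := by positivity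
  have m0 : 0 ≤ mn θ e₃ e b b' * w := by unfold mn; positivity
  have p1 := Real.rpow_pos_of_pos hb t
  have p2 := Real.rpow_pos_of_pos hb (-t)
  have p3 := Real.rpow_pos_of_pos L0 t
  have d1 : 0 ≤ (b ^ t + b ^ (-t)) / L ^ t := by positivity
  have d2 : 0 ≤ w⁻¹ / L := by positivity
  have d3 := sq_nonneg (Real.log b - Real.log b')
  by_cases h : 1 ≤ (b ^ t + b ^ (-t)) / L ^ t + w⁻¹ / L + (Real.log b - Real.log b') ^ 2
  · exact le_add_of_nonneg_of_le m0 (le_mul_of_one_le_right (by positivity) h)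
  refine le_add_of_le_of_nonneg ?_ (by positivity)
  have h1 : b ^ t + b ^ (-t) ≤ L ^ t := (div_le_one p3).1 (by linarith)
  have h2 : b ≤ L := (Real.rpow_le_rpow_iff hb.le L0.le t0).1 (by linarith)
  have h3 : L⁻¹ ≤ b := (inv_le_comm₀ L0 hb).2 ((Real.rpow_le_rpow_iff (inv_pos.2 hb).le L0.le t0).1
    (by rw [Real.inv_rpow hb.le, ← Real.rpow_neg hb.le]; linarith))
  have h4 : L⁻¹ ≤ w := (inv_le_comm₀ L0 hw).2 ((div_le_one L0).1 (by linarith))
  obtain ⟨h5, h6⟩ := near hb hb' (by linarith)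
  have h7 : b + e₃ * b' + e ≤ 5 * L := by nlinarith
  have h8 : ((5 * L) ^ 3)⁻¹ ≤ (b + e₃ * b' + e) ^ (-(2 + θ)) := by
    refine le_trans ?_ (Real.rpow_le_rpow_of_nonpos S0 h7 (by linarith))
    rw [← Real.rpow_natCast, ← Real.rpow_neg (by positivity)]
    exact Real.rpow_le_rpow_of_exponent_le (by linarith) (by push_cast; linarith)
  calc (375 * L ^ 6)⁻¹ = L⁻¹ * (L⁻¹ / 3) * ((5 * L) ^ 3)⁻¹ * L⁻¹ := by field_simp; ring
    _ ≤ _ := by
      unfold mn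
      gcongr
      linarith

theorem top (hb : 0 < b) (hb' : 0 < b') (e0 : 0 < e) (f0 : 0 < e₃) (θ0 : 0 < θ) :
    er θ e₃ e b b' ≤ e ^ (-θ) / (θ * e₃) := by
  have S0 : 0 < b + e₃ * b' + e := by positivity
  have h1 : b' * (e₃ * b' + e) ≤ (b + e₃ * b' + e) ^ 2 / e₃ := by
    rw [le_div_iff₀ f0]
    nlinarith [mul_pos f0 hb', mul_pos hb (mul_pos f0 hb'), mul_pos hb e0, mul_pos e0 e0,
      mul_pos e0 (mul_pos f0 hb'), mul_pos hb hb]
  have h2 : (b + e₃ * b' + e) ^ (-θ) ≤ e ^ (-θ) :=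
    Real.rpow_le_rpow_of_nonpos e0 (by nlinarith [mul_pos f0 hb']) (by linarith)
  unfold er
  rw [neg_add, Real.rpow_add S0, Real.rpow_neg S0.le, Real.rpow_two]
  calc _ ≤ θ⁻¹ * ((b + e₃ * b' + e) ^ 2 / e₃ * (((b + e₃ * b' + e) ^ 2)⁻¹ * e ^ (-θ))) := by gcongr
    _ = _ := by field_simp

theorem upp {t s : ℝ} (hb : 0 < b) (hb' : 0 < b') (s0 : 0 < s) (s1 : s ≤ e₃) (f1 : e₃ ≤ 1)
    (θ0 : 0 < θ) (θt : θ ≤ t / 16) : er θ e₃ (s ^ 2) b b' ^ 4 ≤
      (12 * e₃ / θ) ^ 4 * (1 + b ^ (-t)) + ((s ^ 2) ^ (-θ) / (θ * e₃)) ^ 4 *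
        (Real.log b - Real.log b') ^ 2 + s ^ (t / 2) / (θ * e₃) ^ 4 * b ^ (-t) := by
  have f0 : 0 < e₃ := s0.trans_le s1
  have S0 : 0 < b + e₃ * b' + s ^ 2 := by positivity
  have r0 : 0 ≤ er θ e₃ (s ^ 2) b b' := by unfold er; positivity
  have p2 := Real.rpow_pos_of_pos hb (-t)
  have h0 := pow_le_pow_left₀ r0 (top hb hb' (pow_pos s0 2) f0 θ0) 4
  have a1 : 0 ≤ (12 * e₃ / θ) ^ 4 * (1 + b ^ (-t)) := by positivity
  have a2 : 0 ≤ ((s ^ 2) ^ (-θ) / (θ * e₃)) ^ 4 * (Real.log b - Real.log b') ^ 2 := by positivity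
  have a3 : 0 ≤ s ^ (t / 2) / (θ * e₃) ^ 4 * b ^ (-t) := by positivity
  rcases le_total 1 ((Real.log b - Real.log b') ^ 2) with h | h
  · linarith [le_mul_of_one_le_right (by positivity : 0 ≤ ((s ^ 2) ^ (-θ) / (θ * e₃)) ^ 4) h]
  rcases le_total b s with k | k
  · have : ((s ^ 2) ^ (-θ) / (θ * e₃)) ^ 4 ≤ s ^ (t / 2) / (θ * e₃) ^ 4 * b ^ (-t) := by
      rw [div_pow, div_mul_eq_mul_div, ← Real.rpow_natCast s, ← Real.rpow_mul s0.le,
        ← Real.rpow_natCast (s ^ _), ← Real.rpow_mul s0.le]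
      refine div_le_div_of_nonneg_right (le_trans ?_ (mul_le_mul_of_nonneg_left
        (Real.rpow_le_rpow_of_nonpos hb k (by linarith)) (by positivity))) (by positivity)
      rw [← Real.rpow_add s0]
      exact Real.rpow_le_rpow_of_exponent_ge s0 (s1.trans f1) (by push_cast; linarith)
    linarith
  · obtain ⟨-, h6⟩ := near hb hb' h
    have h1 : er θ e₃ (s ^ 2) b b' ≤ 12 * e₃ / θ * b ^ (-θ) := by
      have h2 : (b + e₃ * b' + s ^ 2) ^ (-(2 + θ)) ≤ b ^ (-(2 + θ)) :=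
        Real.rpow_le_rpow_of_nonpos hb (by nlinarith [mul_pos f0 hb']) (by linarith)
      have h3 : e₃ * b' + s ^ 2 ≤ 4 * e₃ * b := by nlinarith [mul_le_mul s1 k s0.le f0.le]
      rw [neg_add, Real.rpow_add hb, Real.rpow_neg hb.le, Real.rpow_two, ← neg_add] at h2
      unfold er
      calc _ ≤ θ⁻¹ * (3 * b * (4 * e₃ * b) * ((b ^ 2)⁻¹ * b ^ (-θ))) := by gcongr
        _ = _ := by field_simp; ring
    have h4 : (b ^ (-θ)) ^ 4 ≤ 1 + b ^ (-t) := by
      rw [← Real.rpow_natCast, ← Real.rpow_mul hb.le]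
      rcases le_total b 1 with l | l
      · exact le_add_of_nonneg_of_le zero_le_one
          (Real.rpow_le_rpow_of_exponent_ge hb l (by push_cast; linarith))
      · exact le_add_of_le_of_nonneg
          (Real.rpow_le_one_of_one_le_of_nonpos l (by push_cast; linarith)) p2.le
    have h5 := pow_le_pow_left₀ r0 h1 4
    rw [mul_pow] at h5
    linarith [mul_le_mul_of_nonneg_left h4 (by positivity : 0 ≤ (12 * e₃ / θ) ^ 4)]

theorem small {f : ℝ → ℝ} (hf : Tendsto f (𝓝[>] 0) (𝓝 0)) {η a : ℝ} (η0 : 0 < η) (a0 : 0 < a) :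
    ∃ s, 0 < s ∧ s ≤ a ∧ f s ≤ η := by
  obtain ⟨s, h1, h2⟩ := ((hf.eventually_le_const η0).and (Ioc_mem_nhdsGT a0)).exists
  exact ⟨s, h2.1, h2.2, h1⟩

end Key

open Key in
/-- The main term is large and the error is small for functions that are close. -/
theorem keyp {t C c₁ : ℝ} (t0 : 0 < t) (c0 : 0 < c₁) : ∃ c > (0 : ℝ), ∀ θ η : ℝ, 0 < θ → θ ≤ 1 →
    θ ≤ t / 16 → 0 < η → ∃ e₃ e δ : ℝ, 0 < e₃ ∧ e₃ ≤ 1 ∧ 0 < e ∧ e ≤ 1 ∧ 0 < δ ∧
    ∀ (Ω : Type) [MeasurableSpace Ω] (ν : Measure Ω) [IsProbabilityMeasure ν] (b b' w : Ω → ℝ)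
      (V : Set Ω), (∀ᵐ p ∂ν, 0 < b p ∧ 0 < b' p ∧ 0 < w p) → Mo ν (fun p => b p ^ t) C →
      Mo ν (fun p => b p ^ (-t)) C → Mo ν (fun p => (w p)⁻¹) C →
      Mo ν (fun p => (Real.log (b p) - Real.log (b' p)) ^ 2) δ → c₁ ≤ ν.real V →
      ENNReal.ofReal c ≤ ∫⁻ p in V, ENNReal.ofReal (mn θ e₃ e (b p) (b' p) * w p) ∂ν ∧
      ∫⁻ p, ENNReal.ofReal (er θ e₃ e (b p) (b' p) ^ 4) ∂ν ≤ ENNReal.ofReal η := by
  obtain ⟨L, ⟨l1, l2⟩, L1⟩ := (((((tendsto_rpow_atTop t0).const_div_atTop (C + C)).eventually_le_const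
    (show 0 < c₁ / 4 by positivity)).and ((tendsto_id.const_div_atTop C).eventually_le_const
      (show 0 < c₁ / 4 by positivity))).and (eventually_ge_atTop (1 : ℝ))).exists
  have L0 : 0 < L := one_pos.trans_le L1
  refine ⟨(375 * L ^ 6)⁻¹ * (c₁ / 4), by positivity, fun θ η θ0 θ1 θt η0 => ?_⟩
  obtain ⟨e₃, f0, f1, h1⟩ := small (f := fun x => (12 * x / θ) ^ 4 * (1 + C))
    (Tendsto.mono_left (Continuous.tendsto' (by fun_prop) _ _ (by simp)) nhdsWithin_le_nhds)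
    (show 0 < η / 3 by positivity) one_pos
  obtain ⟨s, s0, s1, h2⟩ := small (f := fun x => x ^ (t / 2) / (θ * e₃) ^ 4 * C)
    (Tendsto.mono_left (Continuous.tendsto' (((Real.continuous_rpow_const
      (half_pos t0).le).div_const _).mul continuous_const) _ _
      (by simp [Real.zero_rpow (half_pos t0).ne'])) nhdsWithin_le_nhds)
    (show 0 < η / 3 by positivity) f0
  obtain ⟨δ, δ0, δ1, h3⟩ := small (f := fun x => ((s ^ 2) ^ (-θ) / (θ * e₃)) ^ 4 * x)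
    (Tendsto.mono_left (Continuous.tendsto' (by fun_prop) _ _ (by simp)) nhdsWithin_le_nhds)
    (show 0 < η / 3 by positivity) (show 0 < c₁ / 4 by positivity)
  have e1 : s ^ 2 ≤ 1 := pow_le_one₀ s0.le (s1.trans f1)
  refine ⟨e₃, s ^ 2, δ, f0, f1, pow_pos s0 2, e1, δ0,
    fun Ω _ ν _ b b' w V hp m1 m2 m3 m4 hV => ⟨?_, ?_⟩⟩
  · have i1 := (m1.1.add m2.1).div_const (L ^ t)
    have i2 := m3.1.div_const L
    have i3 := ((i1.add i2).add m4.1).const_mul (375 * L ^ 6)⁻¹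
    have k1 : ∫⁻ p, ENNReal.ofReal ((375 * L ^ 6)⁻¹ * ((b p ^ t + b p ^ (-t)) / L ^ t +
        (w p)⁻¹ / L + (Real.log (b p) - Real.log (b' p)) ^ 2)) ∂ν ≤
        ENNReal.ofReal ((375 * L ^ 6)⁻¹ * (3 * (c₁ / 4))) := by
      refine (ofReal_integral_eq_lintegral_ofReal i3 (hp.mono fun p h => ?_)).ge.trans
        (ENNReal.ofReal_le_ofReal ?_)
      · obtain ⟨h1, -, h2⟩ := h
        simp only [Pi.add_apply, Pi.zero_apply]
        positivity
      rw [integral_const_mul, integral_add' (i1.add i2) m4.1, integral_add' i1 i2, integral_div,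
        integral_div, integral_add' m1.1 m2.1]
      refine mul_le_mul_of_nonneg_left ?_ (by positivity)
      have j1 := div_le_div_of_nonneg_right (add_le_add m1.2 m2.2) (Real.rpow_nonneg L0.le t)
      have j2 := div_le_div_of_nonneg_right m3.2 L0.le
      simp only [id] at l2
      linarith [m4.2]
    refine ENNReal.le_of_add_le_add_right (a := ENNReal.ofReal ((375 * L ^ 6)⁻¹ * (3 * (c₁ / 4))))
      ENNReal.ofReal_ne_top ?_
    rw [← ENNReal.ofReal_add (by positivity) (by positivity), ← mul_add,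
      show c₁ / 4 + 3 * (c₁ / 4) = c₁ by ring, ENNReal.ofReal_mul (by positivity)]
    refine le_trans (mul_le_mul_right ((ENNReal.ofReal_le_ofReal hV).trans
      ENNReal.ofReal_toReal_le) _) (le_trans ?_ (add_le_add le_rfl
        ((setLIntegral_le_lintegral V _).trans k1)))
    rw [← setLIntegral_const]
    refine le_trans ?_ (lintegral_add_right' _
      i3.aestronglyMeasurable.aemeasurable.ennreal_ofReal.restrict).le
    exact lintegral_mono_ae (ae_restrict_of_ae (hp.mono fun p h => (ENNReal.ofReal_le_ofReal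
      (low t0 L1 h.1 h.2.1 h.2.2 (pow_pos s0 2) e1 f0 f1 θ0 θ1)).trans ENNReal.ofReal_add_le))
  · have i1 := ((integrable_const (1 : ℝ)).add m2.1).const_mul ((12 * e₃ / θ) ^ 4)
    have i2 := m4.1.const_mul (((s ^ 2) ^ (-θ) / (θ * e₃)) ^ 4)
    have i3 := m2.1.const_mul (s ^ (t / 2) / (θ * e₃) ^ 4)
    refine (lintegral_mono_ae (hp.mono fun p h => ENNReal.ofReal_le_ofReal
      (upp h.1 h.2.1 s0 s1 f1 θ0 θt))).trans ((ofReal_integral_eq_lintegral_ofReal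
        ((i1.add i2).add i3) (hp.mono fun p h => ?_)).ge.trans (ENNReal.ofReal_le_ofReal ?_))
    · obtain ⟨h1, -⟩ := h
      simp only [Pi.add_apply, Pi.zero_apply]
      positivity
    rw [integral_add' (i1.add i2) i3, integral_add' i1 i2, integral_const_mul, integral_const_mul,
      integral_const_mul, integral_add' (integrable_const _) m2.1, integral_const, probReal_univ,
      one_smul]
    have j1 := mul_le_mul_of_nonneg_left (add_le_add (le_refl (1 : ℝ)) m2.2)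
      (show 0 ≤ (12 * e₃ / θ) ^ 4 by positivity)
    have j2 := mul_le_mul_of_nonneg_left m4.2
      (show 0 ≤ ((s ^ 2) ^ (-θ) / (θ * e₃)) ^ 4 by positivity)
    have j3 := mul_le_mul_of_nonneg_left m2.2 (show 0 ≤ s ^ (t / 2) / (θ * e₃) ^ 4 by positivity)
    linarith

/-- The sum of a tower. -/
def be {Ω : Type} (P P' : ℕ → Ω → ℝ) (n : ℕ) (p : Ω) : ℝ :=
  ∑ a ∈ Finset.range n, ((2 : ℝ) ^ (a + 1))⁻¹ * (Real.log (P a p) - Real.log (P' a p))

/-- Functions with values in `(0, 1]` and a negative moment. -/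
def Um {Ω : Type} [MeasurableSpace Ω] (ν : Measure Ω) (t C : ℝ) (g : Ω → ℝ) : Prop :=
  Measurable g ∧ (∀ᵐ p ∂ν, 0 < g p ∧ g p ≤ 1) ∧ Mo ν (fun p => g p ^ (-t)) C

/-- The exponential moments of the sum. -/
theorem mom {Ω : Type} [MeasurableSpace Ω] {ν : Measure Ω} [IsProbabilityMeasure ν] {t C x : ℝ}
    (t0 : 0 < t) (x0 : 0 ≤ x) (xt : x ≤ t) {P P' : ℕ → Ω → ℝ} {n : ℕ}
    (h : ∀ a < n, Um ν t C (P a) ∧ Um ν t C (P' a)) :
    Mo ν (fun p => Real.exp (x * be P P' n p)) (max C 1) ∧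
      Mo ν (fun p => Real.exp (-(x * be P P' n p))) (max C 1) := by
  have k : ∀ {P P' : ℕ → Ω → ℝ}, (∀ a < n, Um ν t C (P a) ∧ Um ν t C (P' a)) →
      Mo ν (fun p => Real.exp (x * be P P' n p)) (max C 1) := fun {P P'} h => by
    have h1 := cAMG Ω ℕ ν (Finset.range n) P' (fun a => x * ((2 : ℝ) ^ (a + 1))⁻¹) t C t0
      (fun _ _ => by positivity) (by
        rw [← Finset.mul_sum]
        exact (mul_le_of_le_one_right x0 (by simpa using CCLS.geo 0 n)).trans xt)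
      fun a ha => let u := (h a (Finset.mem_range.1 ha)).2
        ⟨u.1, u.2.1.mono fun _ k => k.1, u.2.2⟩
    have h2 : ∀ᵐ p ∂ν, Real.exp (x * be P P' n p) ≤ Real.exp (-∑ a ∈ Finset.range n,
        x * ((2 : ℝ) ^ (a + 1))⁻¹ * Real.log (P' a p)) := by
      filter_upwards [(ae_ball_iff (Finset.range n).countable_toSet).2 fun a ha =>
        (h a (Finset.mem_range.1 ha)).1.2.1] with p hp
      rw [Real.exp_le_exp, be, Finset.mul_sum, ← Finset.sum_neg_distrib]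
      refine Finset.sum_le_sum fun a ha => ?_
      have := mul_nonneg (show 0 ≤ x * ((2 : ℝ) ^ (a + 1))⁻¹ by positivity)
        (neg_nonneg.2 (Real.log_nonpos (hp a ha).1.le (hp a ha).2))
      linarith
    have hm : Measurable fun p => Real.exp (x * be P P' n p) :=
      ((Finset.measurable_sum _ fun a ha => ((h a (Finset.mem_range.1 ha)).1.1.log.sub
        (h a (Finset.mem_range.1 ha)).2.1.log).const_mul _).const_mul x).exp
    have hi := h1.1.mono' hm.aestronglyMeasurable (h2.mono fun p hp => by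
      rwa [Real.norm_of_nonneg (Real.exp_pos _).le])
    exact ⟨hi, (integral_mono_ae hi h1.1 h2).trans h1.2⟩
  refine ⟨k h, ?_⟩
  have e : ∀ p, -(x * be P P' n p) = x * be P' P n p := fun p => by
    rw [← mul_neg, be, be, ← Finset.sum_neg_distrib]
    exact congrArg _ (Finset.sum_congr rfl fun a _ => by ring)
  simp only [e]
  exact k fun a ha => (h a ha).symm

open CCLS in
/-- Two towers that start with close terms have close sums. -/
theorem twr {t C δ : ℝ} (t0 : 0 < t) (hδ : 0 < δ) : ∃ (M : ℕ) (δ' : ℝ), 0 < δ' ∧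
    ∀ (Ω : Type) [MeasurableSpace Ω] (ν : Measure Ω) [IsProbabilityMeasure ν]
      (P P' R R' : ℕ → Ω → ℝ) (n n' : ℕ), M ≤ n → M ≤ n' →
      (∀ a < n, Um ν t C (P a) ∧ Um ν t C (P' a)) → (∀ a < n', Um ν t C (R a) ∧ Um ν t C (R' a)) →
      (∀ a < M, ∀ᵐ p ∂ν, |P a p - R a p| ≤ δ' ∧ |P' a p - R' a p| ≤ δ') →
      Mo ν (fun p => (be P P' n p - be R R' n' p) ^ 2) δ := by
  obtain ⟨B₀, hB⟩ := cLGC t C t0
  set B := max B₀ 0
  have B0 : 0 ≤ B := le_max_right _ _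
  obtain ⟨δ', d3, hg⟩ := hB (δ / 32) (by positivity)
  obtain ⟨M, hM⟩ : ∃ M : ℕ, ((2 : ℝ) ^ M)⁻¹ ≤ δ / 2 / (24 * B + 1) :=
    ((tendsto_inv_atTop_zero.comp (tendsto_pow_atTop_atTop_of_one_lt one_lt_two)).eventually
      (eventually_le_nhds (by positivity))).exists
  refine ⟨M, δ', d3, fun Ω _ ν _ P P' R R' n n' h1 h2 hP hR hc => ?_⟩
  obtain ⟨k, rfl⟩ := Nat.exists_eq_add_of_le h1
  obtain ⟨k', rfl⟩ := Nat.exists_eq_add_of_le h2
  have g1 := fun {g g' : Ω → ℝ} (u : Um ν t C g) (u' : Um ν t C g') => hg Ω ν g g' u.1 u'.1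
    ((u.2.1.and u'.2.1).mono fun p h => ⟨h.1.1, h.1.2, h.2⟩) u.2.2 u'.2.2
  have qT : ∀ {g g' : Ω → ℝ}, Um ν t C g ∧ Um ν t C g' →
      Q ν (fun p => Real.log (g p) - Real.log (g' p)) (2 * B + 2 * B) := fun u =>
    Q.sub (Q.mono ⟨u.1.1.log, (g1 u.1 u.1).1⟩ (le_max_left _ _))
      (Q.mono ⟨u.2.1.log, (g1 u.2 u.2).1⟩ (le_max_left _ _))
  have p2 := wsum (Finset.range M) (fun a => ((2 : ℝ) ^ (a + 1))⁻¹) _ (by positivity)
    (fun _ _ => by positivity) (T := 1) (by simpa using geo 0 M) fun a ha =>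
      let l := Finset.mem_range.1 ha
      let u := hP a (Nat.lt_add_right k l)
      let v := hR a (Nat.lt_add_right k' l)
      Q.sub ⟨u.1.1.log.sub v.1.1.log, (g1 u.1 v.1).2 ((hc a l).mono fun _ h => h.1)⟩
        ⟨u.2.1.log.sub v.2.1.log, (g1 u.2 v.2).2 ((hc a l).mono fun _ h => h.2)⟩
  have p3 := wsum (Finset.range k) (fun a => ((2 : ℝ) ^ (M + a + 1))⁻¹) _ (by positivity)
    (fun _ _ => by positivity) (geo M k) fun a ha =>
      qT (hP (M + a) (Nat.add_lt_add_left (Finset.mem_range.1 ha) M))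
  have p4 := wsum (Finset.range k') (fun a => ((2 : ℝ) ^ (M + a + 1))⁻¹) _ (by positivity)
    (fun _ _ => by positivity) (geo M k') fun a ha =>
      qT (hR (M + a) (Nat.add_lt_add_left (Finset.mem_range.1 ha) M))
  refine mo_congr ((p2.add p3).sub p4).2 ?_ (ae_of_all _ fun p => ?_)
  · have h1 : ((2 : ℝ) ^ M)⁻¹ ≤ 1 := inv_le_one_of_one_le₀ (one_le_pow₀ one_le_two)
    have h2 : (0 : ℝ) ≤ ((2 : ℝ) ^ M)⁻¹ := by positivity
    rw [le_div_iff₀ (by positivity)] at hM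
    generalize ((2 : ℝ) ^ M)⁻¹ = s at *
    have h3 : s ^ 2 * B ≤ s * B := mul_le_mul_of_nonneg_right (by nlinarith) B0
    nlinarith
  · beta_reduce
    unfold be
    rw [Finset.sum_range_add, Finset.sum_range_add]
    refine congrArg (· ^ 2) ?_
    simp only [Pi.sub_apply, mul_sub, Finset.sum_sub_distrib]
    ring

/-- The pigeonhole principle for blocks of a sequence in a compact set. -/
theorem pig {F : Type} [PseudoMetricSpace F] {T : Set F} (hT : IsCompact T) (c : ℕ → F)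
    (hc : ∀ a, c a ∈ T) {δ : ℝ} (hδ : 0 < δ) (M i₀ : ℕ) :
    ∃ i i', i₀ ≤ i ∧ i < i' ∧ ∀ a < M, dist (c (i + a)) (c (i' + a)) ≤ δ := by
  obtain ⟨s, hs, h⟩ := Metric.totallyBounded_iff.1 hT.totallyBounded (δ / 2) (half_pos hδ)
  have k : ∀ a, ∃ y : s, dist (c a) y < δ / 2 := fun a =>
    let ⟨y, hy, h⟩ := mem_iUnion₂.1 (h (hc a))
    ⟨⟨y, hy⟩, h⟩
  choose y hy using k
  have := hs.to_subtype
  obtain ⟨i, hi, i', -, hii, he⟩ := (Set.Ici_infinite i₀).exists_lt_map_eq_of_mapsTo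
    (Set.mapsTo_univ (fun i => fun a : Fin M => y (i + a)) _) Set.finite_univ
  refine ⟨i, i', hi, hii, fun a ha => ?_⟩
  have e : y (i + a) = y (i' + a) := congrFun he ⟨a, ha⟩
  have b := hy (i + a)
  rw [e] at b
  linarith [dist_triangle_right (c (i + a)) (c (i' + a)) (y (i' + a)), hy (i' + a)]

end Pool.Agent.Lib.KB14
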